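import Pool.Agent.MP_eba2ed_ag.Lcm

namespace Pool.Agent.Results.MP_eba2ed_ag.LocCMCharP

open CategoryTheory AlgebraicGeometry Pool.Agent.MP_eba2ed_ag

/-- For every prime `p`, every degree `d ≥ 6 p + 14` and arbitrarily negative `g`, the Hilbert
scheme over the integers of closed subschemes of projective three-space with Hilbert polynomial
`d t + 1 - g` exists and has an irreducible component whose image in `Spec ℤ` is the single point
`(p)` and whose generic member is a locally Cohen-Macaulay curve. -/
theorem result : ∀ p : ℕ, p.Prime → ∀ d : ℕ, 6 * p + 14 ≤ d → ∀ G : ℤ, ∃ g : ℤ, g ≤ G ∧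
    (∃ (H : Scheme.{0})
      (fam : ∀ R : CommRingCat.{0}, (Spec R ⟶ H) → Ideal (MvPolynomial (Fin 4) R)),
      Represents d g H fam) ∧
    ∀ (H : Scheme.{0})
      (fam : ∀ R : CommRingCat.{0}, (Spec R ⟶ H) → Ideal (MvPolynomial (Fin 4) R)),
      Represents d g H fam → ∃ Z ∈ irreducibleComponents H,
        (specZIsTerminal.from H) '' Z = {x | x.asIdeal = Ideal.span {(p : ℤ)}} ∧
        ∃ (K : Type) (_ : Field K) (s : Spec (CommRingCat.of K) ⟶ H),
          closure (Set.range s) = Z ∧ NoAssPt (fam (CommRingCat.of K) s) := by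
  intro p hp d hd G
  obtain ⟨g, h1, h2⟩ := exists_component_LC p hp d hd G
  exact ⟨g, h1, exists_hilbertScheme d g, h2⟩

end Pool.Agent.Results.MP_eba2ed_ag.LocCMCharP
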